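import Mathlib
import Pool.Agent.Run7.h126.Simplex

set_option autoImplicit false

open MeasureTheory ProbabilityTheory

namespace Pool.Agent.Results.MP_119458_pr.PlanarNeg

open Pool.Agent.Run7.h126

lemma g2_ac : g2 ≪ (volume : Measure (ℝ × ℝ)) := by
  rw [g2_eq]
  exact withDensity_absolutelyContinuous _ _

/-- at correlation `-1` the simplex partition has stability zero -/
lemma neg_one_zero {a : Fin 3 → ℝ × ℝ} (ha : ∀ i, dot (a i) (a i) = 1)
    (hab : ∀ i j, i ≠ j → dot (a i) (a j) = -1/2) {B : Fin 3 → Set (ℝ × ℝ)}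
    (hB : ∀ x, ∃! i, x ∈ B i) (hsub : ∀ i, {x | ∀ j, j ≠ i → dot (a j) x < dot (a i) x} ⊆ B i)
    (i : Fin 3) :
    (g2.prod g2) {p : (ℝ × ℝ) × (ℝ × ℝ) | p.1 ∈ B i ∧
      ((-1:ℝ) * p.1.1 + 0 * p.2.1, (-1:ℝ) * p.1.2 + 0 * p.2.2) ∈ B i} = 0 := by
  have hT : g2 (Tie a) = 0 := g2_ac (Tie_null ha hab)
  have hsubset : {p : (ℝ × ℝ) × (ℝ × ℝ) | p.1 ∈ B i ∧
      ((-1:ℝ) * p.1.1 + 0 * p.2.1, (-1:ℝ) * p.1.2 + 0 * p.2.2) ∈ B i} ⊆
      (Tie a) ×ˢ Set.univ := by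
    rintro ⟨x, z⟩ ⟨h1, h2⟩
    refine ⟨?_, Set.mem_univ _⟩
    by_contra hx
    simp only at h1 h2 hx
    have e : (((-1:ℝ) * x.1 + 0 * z.1, (-1:ℝ) * x.2 + 0 * z.2) : ℝ × ℝ) = (-x.1, -x.2) := by
      ext <;> simp
    rw [e] at h2
    have hx' : ((-x.1, -x.2) : ℝ × ℝ) ∉ Tie a := by
      rintro ⟨j, k, hjk, h⟩
      apply hx
      refine ⟨j, k, hjk, ?_⟩
      unfold dot at h ⊢
      simp only at h
      linarith
    have d1 := B_sub ha hab hB hsub h1 hx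
    have d2 := B_sub ha hab hB hsub h2 hx'
    have e2 : dot (a i) (-x.1, -x.2) = -dot (a i) x := by unfold dot; ring
    have h3 := d1.1
    have h4 := d2.1
    rw [e2] at h4
    have h5 : dot (a i) x = 0 := by linarith
    have h6 := d1.2
    rw [h5] at h6
    have h7 : x.1 = 0 := by nlinarith [sq_nonneg x.1, sq_nonneg x.2]
    have h8 : x.2 = 0 := by nlinarith [sq_nonneg x.1, sq_nonneg x.2]
    apply hx
    refine ⟨0, 1, by decide, ?_⟩
    unfold dot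
    rw [h7, h8]
    simp
  refine measure_mono_null hsubset ?_
  rw [Measure.prod_prod, hT, zero_mul]

/-- transfer to the plane -/
lemma transfer (A : Set (Fin 2 → ℝ)) (hA : MeasurableSet A) (ρ σ : ℝ) :
    ((Measure.pi (fun _ : Fin 2 => gaussianReal 0 1)).prod
      (Measure.pi (fun _ : Fin 2 => gaussianReal 0 1)))
      {p : (Fin 2 → ℝ) × (Fin 2 → ℝ) | p.1 ∈ A ∧ ρ • p.1 + σ • p.2 ∈ A} =
    (g2.prod g2) {p : (ℝ × ℝ) × (ℝ × ℝ) |
      p.1 ∈ (MeasurableEquiv.finTwoArrow (α := ℝ)).symm ⁻¹' A ∧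
      ((ρ * p.1.1 + σ * p.2.1, ρ * p.1.2 + σ * p.2.2) : ℝ × ℝ) ∈
        (MeasurableEquiv.finTwoArrow (α := ℝ)).symm ⁻¹' A} := by
  have hmp : MeasurePreserving (MeasurableEquiv.finTwoArrow (α := ℝ))
      (Measure.pi (fun _ : Fin 2 => gaussianReal 0 1)) g2 :=
    measurePreserving_finTwoArrow (gaussianReal 0 1)
  have hmp2 := hmp.prod hmp
  have hA' : MeasurableSet ((MeasurableEquiv.finTwoArrow (α := ℝ)).symm ⁻¹' A) :=
    (MeasurableEquiv.finTwoArrow (α := ℝ)).symm.measurable hA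
  have hmap : Measurable (fun p : (ℝ × ℝ) × (ℝ × ℝ) =>
      ((ρ * p.1.1 + σ * p.2.1, ρ * p.1.2 + σ * p.2.2) : ℝ × ℝ)) := by fun_prop
  have hE : MeasurableSet {p : (ℝ × ℝ) × (ℝ × ℝ) |
      p.1 ∈ (MeasurableEquiv.finTwoArrow (α := ℝ)).symm ⁻¹' A ∧
      ((ρ * p.1.1 + σ * p.2.1, ρ * p.1.2 + σ * p.2.2) : ℝ × ℝ) ∈
        (MeasurableEquiv.finTwoArrow (α := ℝ)).symm ⁻¹' A} :=
    (measurable_fst hA').inter (hmap hA')
  rw [← hmp2.measure_preimage hE.nullMeasurableSet]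
  congr 1
  ext p
  simp only [Set.mem_preimage, Set.mem_ofPred_eq, Prod.map_fst, Prod.map_snd,
    MeasurableEquiv.symm_apply_apply]
  have e : (MeasurableEquiv.finTwoArrow (α := ℝ)).symm
      (ρ * (MeasurableEquiv.finTwoArrow p.1).1 + σ * (MeasurableEquiv.finTwoArrow p.2).1,
        ρ * (MeasurableEquiv.finTwoArrow p.1).2 + σ * (MeasurableEquiv.finTwoArrow p.2).2)
      = ρ • p.1 + σ • p.2 := by
    rw [MeasurableEquiv.symm_apply_eq]
    ext <;> simp [MeasurableEquiv.finTwoArrow]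
  rw [e]

/-- **Planar three-cell standard simplex inequality for all nonpositive correlations.**
For every `ρ ∈ [-1, 0]` every partition of the plane into three Borel sets (of arbitrary Gaussian
measures) has `ρ`-noise stability at least that of any standard simplex partition. -/
theorem result :
    ∀ ρ : ℝ, -1 ≤ ρ → ρ ≤ 0 →
      ∀ (A B : Fin 3 → Set (Fin 2 → ℝ)) (a : Fin 3 → Fin 2 → ℝ),
        (∀ i, MeasurableSet (A i)) →
        (∀ x : Fin 2 → ℝ, ∃! i, x ∈ A i) →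
        (∀ i, ∑ k, a i k * a i k = 1) →
        (∀ i j, i ≠ j → ∑ k, a i k * a j k = -1 / 2) →
        (∀ i, MeasurableSet (B i)) →
        (∀ x : Fin 2 → ℝ, ∃! i, x ∈ B i) →
        (∀ i, {x : Fin 2 → ℝ | ∀ j, j ≠ i → ∑ k, a j k * x k < ∑ k, a i k * x k} ⊆ B i) →
        ∑ i, ((Measure.pi (fun _ : Fin 2 => gaussianReal 0 1)).prod
                (Measure.pi (fun _ : Fin 2 => gaussianReal 0 1)))
              {p : (Fin 2 → ℝ) × (Fin 2 → ℝ) |
                p.1 ∈ B i ∧ ρ • p.1 + Real.sqrt (1 - ρ ^ 2) • p.2 ∈ B i}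
          ≤
        ∑ i, ((Measure.pi (fun _ : Fin 2 => gaussianReal 0 1)).prod
                (Measure.pi (fun _ : Fin 2 => gaussianReal 0 1)))
              {p : (Fin 2 → ℝ) × (Fin 2 → ℝ) |
                p.1 ∈ A i ∧ ρ • p.1 + Real.sqrt (1 - ρ ^ 2) • p.2 ∈ A i} := by
  intro ρ hρ1 hρ0 A B a hAm hA ha hab hBm hB hsub
  set e := MeasurableEquiv.finTwoArrow (α := ℝ) with he
  simp only [transfer _ (hAm _), transfer _ (hBm _)]
  set a' : Fin 3 → ℝ × ℝ := fun i => (a i 0, a i 1) with ha'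
  have ha2 : ∀ i, dot (a' i) (a' i) = 1 := by
    intro i
    rw [← ha i, Fin.sum_univ_two]
    rfl
  have hab2 : ∀ i j, i ≠ j → dot (a' i) (a' j) = -1/2 := by
    intro i j hij
    rw [← hab i j hij, Fin.sum_univ_two]
    rfl
  have hA2 : ∀ x, ∃! i, x ∈ e.symm ⁻¹' (A i) := fun x => hA (e.symm x)
  have hB2 : ∀ x, ∃! i, x ∈ e.symm ⁻¹' (B i) := fun x => hB (e.symm x)
  have hAm2 : ∀ i, MeasurableSet (e.symm ⁻¹' (A i)) := fun i => e.symm.measurable (hAm i)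
  have hBm2 : ∀ i, MeasurableSet (e.symm ⁻¹' (B i)) := fun i => e.symm.measurable (hBm i)
  have hsub2 : ∀ i, {x | ∀ j, j ≠ i → dot (a' j) x < dot (a' i) x} ⊆ e.symm ⁻¹' (B i) := by
    intro i x hx
    apply hsub i
    intro j hj
    have := hx j hj
    rw [Fin.sum_univ_two, Fin.sum_univ_two]
    exact this
  rcases eq_or_lt_of_le hρ1 with h | h
  · -- ρ = -1
    subst h
    have hs : Real.sqrt (1 - (-1:ℝ) ^ 2) = 0 := by norm_num
    rw [hs]
    refine le_trans (le_of_eq ?_) bot_le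
    apply Finset.sum_eq_zero
    intro i _
    exact neg_one_zero ha2 hab2 hB2 hsub2 i
  · have hpos : 0 < 1 - ρ ^ 2 := by nlinarith
    have hσ : Real.sqrt (1 - ρ ^ 2) ≠ 0 := (Real.sqrt_pos.mpr hpos).ne'
    have hσ2 : Real.sqrt (1 - ρ ^ 2) ^ 2 = 1 - ρ ^ 2 := Real.sq_sqrt hpos.le
    exact planar_main ha2 hab2 hAm2 hA2 hBm2 hB2 hsub2 hσ hσ2 hρ0

end Pool.Agent.Results.MP_119458_pr.PlanarNeg
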