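import Mathlib
import Pool.Agent.Run7.h126.Final2

set_option autoImplicit false

open MeasureTheory ProbabilityTheory

namespace Pool.Agent.Results.MP_119458_pr.ThreeNeg

open Pool.Agent.Run7.h126

/-- **The three-cell standard simplex inequality in every dimension for correlations in
`[-1/2, 0]`.**  For every `n ≥ 2` and every `ρ ∈ [-1/2, 0]` every partition of `ℝⁿ` into three
Borel sets (of arbitrary Gaussian measures) has `ρ`-noise stability at least that of any standard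
simplex partition. -/
theorem result :
    ∀ n : ℕ, 2 ≤ n → ∀ ρ : ℝ, -1 / 2 ≤ ρ → ρ ≤ 0 →
      ∀ (A B : Fin 3 → Set (Fin n → ℝ)) (a : Fin 3 → Fin n → ℝ),
        (∀ i, MeasurableSet (A i)) →
        (∀ x : Fin n → ℝ, ∃! i, x ∈ A i) →
        (∀ i, ∑ k, a i k * a i k = 1) →
        (∀ i j, i ≠ j → ∑ k, a i k * a j k = -1 / 2) →
        (∀ i, MeasurableSet (B i)) →
        (∀ x : Fin n → ℝ, ∃! i, x ∈ B i) →
        (∀ i, {x : Fin n → ℝ | ∀ j, j ≠ i → ∑ k, a j k * x k < ∑ k, a i k * x k} ⊆ B i) →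
        ∑ i, ((Measure.pi (fun _ : Fin n => gaussianReal 0 1)).prod
                (Measure.pi (fun _ : Fin n => gaussianReal 0 1)))
              {p : (Fin n → ℝ) × (Fin n → ℝ) |
                p.1 ∈ B i ∧ ρ • p.1 + Real.sqrt (1 - ρ ^ 2) • p.2 ∈ B i}
          ≤
        ∑ i, ((Measure.pi (fun _ : Fin n => gaussianReal 0 1)).prod
                (Measure.pi (fun _ : Fin n => gaussianReal 0 1)))
              {p : (Fin n → ℝ) × (Fin n → ℝ) |
                p.1 ∈ A i ∧ ρ • p.1 + Real.sqrt (1 - ρ ^ 2) • p.2 ∈ A i} := by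
  intro n hn ρ hρ1 hρ0 A B a hAm hA ha hab hBm hB hsub
  obtain ⟨m, rfl⟩ := Nat.exists_eq_add_of_le' hn
  have hpos : 0 < 1 - ρ ^ 2 := by nlinarith
  have hσ : 0 < Real.sqrt (1 - ρ ^ 2) := Real.sqrt_pos.mpr hpos
  have hσ2 : Real.sqrt (1 - ρ ^ 2) ^ 2 = 1 - ρ ^ 2 := Real.sq_sqrt hpos.le
  exact st_main hσ.ne' hσ2 hρ0 (modeOK_half hσ hσ2 hρ0 (by linarith)) A B a hAm hA ha hab hBm hB
    hsub

end Pool.Agent.Results.MP_119458_pr.ThreeNeg
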